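import Mathlib
import Pool.Agent.H37.Sun.AllA
import Pool.Agent.H37.Sun.ResB
import Pool.Agent.H37.Sun.ResC
import Pool.Agent.H99.Sun.DPart

/-! All of (a), (b), (c), (d): the congruences modulo `p^2` hold for every prime `p > 3`, and the
divisibility (c) holds for every integer `n ≥ 2`. -/

namespace Pool.Agent.Results.MP_57dfb0_nt.FullQ1

open Polynomial Finset

/-- The generalised central trinomial coefficient `T_n(b,c)`, the coefficient of `x^n` in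
`(x^2 + b x + c)^n`, for integers `b`, `c`. -/
noncomputable def T (n : ℕ) (b c : ℤ) : ℤ := ((X ^ 2 + C b * X + C c : ℤ[X]) ^ n).coeff n

/-- `a_k = binom(2k,k)^2 T_k(10,1)`. -/
noncomputable def a (k : ℕ) : ℤ := ((2 * k).choose k : ℤ) ^ 2 * T k 10 1

/-- `b_k = binom(2k,k)^2 T_{2k}(6,1)`. -/
noncomputable def b (k : ℕ) : ℤ := ((2 * k).choose k : ℤ) ^ 2 * T (2 * k) 6 1

/-- `S_1(p)`. -/
noncomputable def S1 (p : ℕ) : ℚ := ∑ k ∈ range p, (a k : ℚ) / (-64) ^ k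

/-- `S_2(p)`. -/
noncomputable def S2 (p : ℕ) : ℚ := ∑ k ∈ range p, (b k : ℚ) / 256 ^ k

/-- `S_3(p)`. -/
noncomputable def S3 (p : ℕ) : ℚ := ∑ k ∈ range p, (b k : ℚ) / 1024 ^ k

/-- `r` and `s` are congruent modulo `p^2`: the numerator of `r - s` in lowest terms is divisible
by `p^2`. -/
def Cong (p : ℕ) (r s : ℚ) : Prop := (p : ℤ) ^ 2 ∣ (r - s).num

theorem S1_eq (p : ℕ) : S1 p = H24.Sun.S1 p := by
  unfold S1 H24.Sun.S1
  refine sum_congr rfl fun k _ => ?_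
  unfold a
  push_cast
  rfl

theorem S2_eq (p : ℕ) : S2 p = H24.Sun.S2 p := by
  unfold S2 H24.Sun.S2
  refine sum_congr rfl fun k _ => ?_
  unfold b
  push_cast
  rfl

theorem S3_eq (p : ℕ) : S3 p = H24.Sun.S3 p := by
  unfold S3 H24.Sun.S3
  refine sum_congr rfl fun k _ => ?_
  unfold b
  push_cast
  rfl

/-- The whole question: (a), (b) and (d) for every prime `p > 3`, and (c) for every `n ≥ 2`. -/
theorem result :
    (∀ p : ℕ, p.Prime → 3 < p →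
      (Cong p (S1 p) ((jacobiSym p 3 : ℚ) * S2 p) ∧ Cong p ((jacobiSym p 3 : ℚ) * S2 p) (S3 p) ∧
        (p % 24 = 1 ∨ p % 24 = 7 → (∃ x y : ℤ, (p : ℤ) = x ^ 2 + 6 * y ^ 2) ∧
          ∀ x y : ℤ, (p : ℤ) = x ^ 2 + 6 * y ^ 2 → Cong p (S1 p) (4 * (x : ℚ) ^ 2 - 2 * p)) ∧
        (p % 24 = 5 ∨ p % 24 = 11 → (∃ x y : ℤ, (p : ℤ) = 2 * x ^ 2 + 3 * y ^ 2) ∧
          ∀ x y : ℤ, (p : ℤ) = 2 * x ^ 2 + 3 * y ^ 2 → Cong p (S1 p) (8 * (x : ℚ) ^ 2 - 2 * p)) ∧
        (jacobiSym (-6) p = -1 ↔ p % 24 = 13 ∨ p % 24 = 17 ∨ p % 24 = 19 ∨ p % 24 = 23) ∧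
        (jacobiSym (-6) p = -1 → Cong p (S1 p) 0)) ∧
      Cong p (∑ k ∈ range p, (3 * (k : ℚ) + 1) * (a k : ℚ) / (-64) ^ k)
        ((p : ℚ) / 4 * (3 * (jacobiSym p 3 : ℚ) + 1)) ∧
      (jacobiSym (-6) p = 1 →
        Cong p (∑ k ∈ range p, (16 * (k : ℚ) + 5) * (b k : ℚ) / 256 ^ k)
          (8 * (p : ℚ) / 3 * (jacobiSym p 3 : ℚ)) ∧
        Cong p (∑ k ∈ range p, (16 * (k : ℚ) + 3) * (b k : ℚ) / 1024 ^ k)
          (-(2 * (p : ℚ) / 3)))) ∧
    (∀ n : ℕ, 2 ≤ n → (2 * (n : ℤ) * ((2 * n).choose n : ℤ)) ∣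
      ∑ k ∈ range n, (3 * (k : ℤ) + 1) * a k * (-64) ^ (n - 1 - k)) := by
  refine ⟨fun p hp h3 => ⟨?_, ?_, ?_⟩, fun n hn => ?_⟩
  · obtain ⟨h1, h2, h4, h5, h6⟩ := H24.Sun.part_a H37.Sun.ordHyp' p hp h3
    have hF : Fact p.Prime := ⟨hp⟩
    have hiff : jacobiSym (-6) p = -1 ↔ p % 24 = 13 ∨ p % 24 = 17 ∨ p % 24 = 19 ∨ p % 24 = 23 := by
      constructor
      · intro h
        have hns : ¬ IsSquare (((-6 : ℤ)) : ZMod p) := by
          rw [← legendreSym.eq_neg_one_iff, jacobiSym.legendreSym.to_jacobiSym]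
          exact h
        push_cast at hns
        rw [H24.Sun.isSquare_neg_six_iff p h3] at hns
        have hodd : p % 2 = 1 := Nat.odd_iff.mp (hp.odd_of_ne_two (by omega))
        have h3' : p % 3 ≠ 0 := by
          intro h0
          have h1 : 3 ∣ p := Nat.dvd_of_mod_eq_zero h0
          have h2 : 3 = 1 ∨ 3 = p := (Nat.dvd_prime hp).mp h1
          omega
        omega
      · exact H24.Sun.jacobi_of_mod p hp h3
    unfold Cong
    rw [S1_eq, S2_eq, S3_eq]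
    refine ⟨h1, ?_, h4, h5, hiff, fun h => ?_⟩
    · have := H24.Sun.num_sub p _ _ h2 h1
      rwa [show H24.Sun.S1 p - H24.Sun.S3 p - (H24.Sun.S1 p - (jacobiSym p 3 : ℚ) * H24.Sun.S2 p)
        = (jacobiSym p 3 : ℚ) * H24.Sun.S2 p - H24.Sun.S3 p by ring] at this
    · rw [sub_zero]
      exact h6 (hiff.mp h)
  · have := H37.Sun.ResB.result p hp h3
    unfold Cong
    have e : (∑ k ∈ range p, (3 * (k : ℚ) + 1) * (a k : ℚ) / (-64) ^ k) = H37.Sun.ResB.SB p := by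
      unfold H37.Sun.ResB.SB
      refine sum_congr rfl fun k _ => ?_
      unfold a
      push_cast
      rw [← mul_assoc]
      rfl
    rw [e]
    exact this
  · intro hj
    obtain ⟨d2, d3⟩ := H99.Sun.part_d (fun p _ n hn h3 => H37.Sun.legSide p n hn h3) p hp h3 hj
    unfold Cong
    have e2 : (∑ k ∈ range p, (16 * (k : ℚ) + 5) * (b k : ℚ) / 256 ^ k) = H99.Sun.SD2 p := by
      unfold H99.Sun.SD2
      refine sum_congr rfl fun k _ => ?_
      unfold b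
      push_cast
      rw [← mul_assoc]
      rfl
    have e3 : (∑ k ∈ range p, (16 * (k : ℚ) + 3) * (b k : ℚ) / 1024 ^ k) = H99.Sun.SD3 p := by
      unfold H99.Sun.SD3
      refine sum_congr rfl fun k _ => ?_
      unfold b
      push_cast
      rw [← mul_assoc]
      rfl
    rw [e2, e3]
    exact ⟨d2, d3⟩
  · have := H37.Sun.ResC.result n hn
    have e : ∑ k ∈ range n, (3 * (k : ℤ) + 1) * a k * (-64) ^ (n - 1 - k)
        = ∑ k ∈ range n, (3 * (k : ℤ) + 1) * (((2 * k).choose k : ℤ) ^ 2 * H37.Sun.ResC.T k 10 1)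
          * (-64) ^ (n - 1 - k) := by
      refine sum_congr rfl fun k _ => ?_
      rfl
    rw [e]
    exact this

end Pool.Agent.Results.MP_57dfb0_nt.FullQ1
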